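import Pool.Agent.H104.MZ.Stm

/-! Project MZ (helper104), jobs MOM1, LOC (helper95). -/

set_option autoImplicit false

open Polynomial Finset

namespace Pool.Agent.Q95.MZ

open Pool.Agent.H104.MZ

/-- the functional `∑ L_i f(i)` -/
noncomputable def D (f : ℝ[X]) (L : ℤ[X]) : ℝ := L.sum (fun i c => (c : ℝ) * f.eval (i : ℝ))

theorem D_range (f : ℝ[X]) (L : ℤ[X]) (n : ℕ) (hn : L.natDegree < n) :
    D f L = ∑ i ∈ range n, (L.coeff i : ℝ) * f.eval (i : ℝ) := by
  unfold D
  exact Polynomial.sum_over_range' L (fun i => by simp) n hn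

theorem D_sub (f : ℝ[X]) (L M : ℤ[X]) : D f (L - M) = D f L - D f M := by
  obtain ⟨n, h1, h2, h3⟩ : ∃ n, L.natDegree < n ∧ M.natDegree < n ∧ (L - M).natDegree < n :=
    ⟨L.natDegree + M.natDegree + (L - M).natDegree + 1, by omega, by omega, by omega⟩
  rw [D_range f L n h1, D_range f M n h2, D_range f _ n h3, ← Finset.sum_sub_distrib]
  apply Finset.sum_congr rfl
  intro i _
  rw [coeff_sub]
  push_cast
  ring

theorem D_sub_left (f g : ℝ[X]) (L : ℤ[X]) : D (f - g) L = D f L - D g L := by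
  rw [D_range f L _ (Nat.lt_succ_self _), D_range g L _ (Nat.lt_succ_self _),
    D_range _ L _ (Nat.lt_succ_self _), ← Finset.sum_sub_distrib]
  apply Finset.sum_congr rfl
  intro i _
  rw [eval_sub]
  ring

theorem D_X_mul (f : ℝ[X]) (L : ℤ[X]) : D f (X * L) = D (f.comp (X + 1)) L := by
  have h1 : (X * L).natDegree < L.natDegree + 2 := by
    have := natDegree_mul_le (p := (X : ℤ[X])) (q := L)
    have h2 := natDegree_X_le (R := ℤ)
    omega
  rw [D_range f _ (L.natDegree + 2) h1, D_range _ L (L.natDegree + 1) (Nat.lt_succ_self _),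
    Finset.sum_range_succ']
  simp only [coeff_X_mul, coeff_X_mul_zero, Int.cast_zero, zero_mul, add_zero]
  apply Finset.sum_congr rfl
  intro i _
  simp

theorem deg_lt (f : ℝ[X]) (d : ℕ) (hf : f.degree < ((d + 1 : ℕ) : WithBot ℕ)) :
    (f.comp (X + 1) - f).degree < (d : WithBot ℕ) := by
  by_cases h0 : f = 0
  · subst h0
    simp
  have hX : (X + 1 : ℝ[X]) = X + C 1 := by simp
  have hn : (X + 1 : ℝ[X]).natDegree = 1 := by rw [hX]; exact natDegree_X_add_C 1
  have hl : (X + 1 : ℝ[X]).leadingCoeff = 1 := by rw [hX]; exact leadingCoeff_X_add_C 1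
  have hd : (f.comp (X + 1)).natDegree = f.natDegree := by
    rw [natDegree_comp, hn, mul_one]
  have hlc : (f.comp (X + 1)).leadingCoeff = f.leadingCoeff := by
    rw [leadingCoeff_comp (by rw [hn]; exact one_ne_zero), hl, one_pow, mul_one]
  have hc0 : f.comp (X + 1) ≠ 0 := by
    rw [← leadingCoeff_ne_zero, hlc]
    exact leadingCoeff_ne_zero.mpr h0
  have hdeg : (f.comp (X + 1)).degree = f.degree := by
    rw [degree_eq_natDegree hc0, degree_eq_natDegree h0, hd]
  have h := degree_sub_lt hdeg hc0 hlc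
  rw [hdeg] at h
  have hfd : f.degree ≤ (d : WithBot ℕ) := by
    rw [degree_eq_natDegree h0] at hf ⊢
    have : f.natDegree < d + 1 := by exact_mod_cast hf
    exact_mod_cast Nat.lt_succ_iff.mp this
  exact lt_of_lt_of_le h hfd

theorem D_zero : ∀ (d : ℕ) (L : ℤ[X]) (f : ℝ[X]), (X - 1 : ℤ[X]) ^ d ∣ L → f.degree < d →
    D f L = 0 := by
  intro d
  induction d with
  | zero =>
    intro L f _ hf
    have : f = 0 := by
      apply degree_eq_bot.mp
      have : f.degree < 0 := by simpa using hf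
      exact Nat.WithBot.lt_zero_iff.mp this
    subst this
    rw [D_range _ L _ (Nat.lt_succ_self _)]
    simp
  | succ d ih =>
    intro L f hL hf
    obtain ⟨M, rfl⟩ := hL
    have h : (X - 1 : ℤ[X]) ^ (d + 1) * M = X * ((X - 1) ^ d * M) - (X - 1) ^ d * M := by ring
    rw [h, D_sub, D_X_mul, ← D_sub_left]
    exact ih _ _ (dvd_mul_right _ _) (deg_lt f d (by exact_mod_cast hf))

theorem t_MOM1 : S_MOM1 := by
  intro L d f hL hf
  rw [← D_range f L _ (Nat.lt_succ_self _)]
  exact D_zero d L f hL hf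

theorem nrm_range (L : ℤ[X]) :
    (nrm L : ℝ) = ∑ i ∈ range (L.natDegree + 1), |(L.coeff i : ℝ)| := by
  unfold nrm
  push_cast
  have h1 : ∀ i ∈ L.support, ((L.coeff i).natAbs : ℝ) = |(L.coeff i : ℝ)| := by
    intro i _
    rw [Nat.cast_natAbs, Int.cast_abs]
  rw [Finset.sum_congr rfl h1]
  apply Finset.sum_subset supp_subset_range_natDegree_succ
  intro i _ hi
  rw [notMem_support_iff.mp hi]
  simp

theorem t_LOC (h : S_MOM1) : S_LOC := by
  intro L d G n a b η hL hG hη hn hGn j hj hjb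
  have hdeg : (G.comp (X + C (j : ℝ))).degree < (d : WithBot ℕ) := by
    by_cases h0 : G = 0
    · subst h0
      simp only [zero_comp]; exact hG
    have hnd : (G.comp (X + C (j : ℝ))).natDegree = G.natDegree := by
      rw [natDegree_comp, natDegree_X_add_C, mul_one]
    have hlt : G.natDegree < d := by
      rw [degree_eq_natDegree h0] at hG
      exact_mod_cast hG
    calc (G.comp (X + C (j : ℝ))).degree ≤ ((G.comp (X + C (j : ℝ))).natDegree : WithBot ℕ) :=
          degree_le_natDegree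
      _ < (d : WithBot ℕ) := by rw [hnd]; exact_mod_cast hlt
  have hm := h L d _ hL hdeg
  have e1 : ((∑ i ∈ range (L.natDegree + 1), L.coeff i * n (j + i) : ℤ) : ℝ)
      = ∑ i ∈ range (L.natDegree + 1),
        (L.coeff i : ℝ) * ((n (j + i) : ℝ) - G.eval ((j + i : ℕ) : ℝ)) := by
    have e2 : ∑ i ∈ range (L.natDegree + 1), (L.coeff i : ℝ) * G.eval ((j + i : ℕ) : ℝ) = 0 := by
      rw [← hm]
      apply Finset.sum_congr rfl
      intro i _
      congr 1
      rw [eval_comp]
      congr 1
      simp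
      ring
    push_cast
    simp only [mul_sub]
    rw [Finset.sum_sub_distrib]
    push_cast at e2
    rw [e2, sub_zero]
  have e3 : |((∑ i ∈ range (L.natDegree + 1), L.coeff i * n (j + i) : ℤ) : ℝ)| < 1 := by
    rw [e1]
    calc |∑ i ∈ range (L.natDegree + 1),
          (L.coeff i : ℝ) * ((n (j + i) : ℝ) - G.eval ((j + i : ℕ) : ℝ))|
        ≤ ∑ i ∈ range (L.natDegree + 1),
          |(L.coeff i : ℝ) * ((n (j + i) : ℝ) - G.eval ((j + i : ℕ) : ℝ))| :=
          Finset.abs_sum_le_sum_abs _ _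
      _ ≤ ∑ i ∈ range (L.natDegree + 1), |(L.coeff i : ℝ)| * η := by
          apply Finset.sum_le_sum
          intro i hi
          rw [abs_mul]
          apply mul_le_mul_of_nonneg_left _ (abs_nonneg _)
          rw [abs_sub_comm]
          have hi' := Finset.mem_range.mp hi
          exact hGn (j + i) (by omega) (by omega)
      _ = (nrm L : ℝ) * η := by rw [nrm_range, Finset.sum_mul]
      _ < 1 := hn
  have e4 : |(∑ i ∈ range (L.natDegree + 1), L.coeff i * n (j + i) : ℤ)| < 1 := by
    exact_mod_cast e3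
  exact Int.abs_lt_one_iff.mp e4

end Pool.Agent.Q95.MZ
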