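import Pool.Agent.H104.MZ.Stm

/-! Project MZ (helper104), jobs PAR, SIG (helper95). -/

set_option autoImplicit false

open Polynomial Finset

namespace Pool.Agent.Q95.MZ

open Pool.Agent.H104.MZ

theorem diff_cast (p : ℝ[X]) (z : ℕ → ℤ) (h : ∀ i : ℕ, p.eval (i : ℝ) = z i) :
    ∀ (k i : ℕ), (((fwdDiff 1)^[k] z i : ℤ) : ℝ) = (fwdDiff (1 : ℝ))^[k] (fun x => p.eval x) (i : ℝ) := by
  intro k
  induction k with
  | zero =>
    intro i
    simp [h i]
  | succ k ih =>
    intro i
    rw [Function.iterate_succ_apply', Function.iterate_succ_apply']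
    simp only [fwdDiff]
    push_cast
    rw [ih (i + 1), ih i]
    push_cast
    rfl

theorem hockey (k : ℕ) : ∀ N : ℕ, ∑ i ∈ range N, i.choose k = N.choose (k + 1) := by
  intro N
  induction N with
  | zero => simp
  | succ N ih => rw [Finset.sum_range_succ, ih, Nat.choose_succ_succ, add_comm]

theorem t_PAR : S_PAR := by
  intro e s p z hes hp h
  have hzero : ∀ k, e ≤ k → (fwdDiff 1)^[k] z 0 = 0 := by
    intro k hk
    have h1 := diff_cast p z h k 0
    have h2 : (fwdDiff (1 : ℝ))^[k] (fun x => p.eval x) = 0 := by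
      by_cases hp0 : p = 0
      · subst hp0
        have : (fun x : ℝ => (0 : ℝ[X]).eval x) = 0 := by
          ext x; simp
        rw [this]
        clear h1 hp h hk
        induction k with
        | zero => rfl
        | succ k ih =>
          rw [Function.iterate_succ_apply', ih]
          ext x
          simp [fwdDiff]
      · apply Polynomial.fwdDiff_iter_eq_zero_of_degree_lt
        rw [degree_eq_natDegree hp0] at hp
        have : p.natDegree < e := by exact_mod_cast hp
        omega
    rw [h2] at h1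
    simpa using h1
  have hz : ∀ i : ℕ, z i = ∑ k ∈ range e, ((i.choose k : ℕ) : ℤ) * (fwdDiff 1)^[k] z 0 := by
    intro i
    have h1 := shift_eq_sum_fwdDiff_iter (h := (1 : ℕ)) (f := z) (n := i) (y := 0)
    have h2 : z (0 + i • 1) = z i := by simp
    rw [h2] at h1
    rw [h1]
    have h3 : ∀ M : ℕ, i + 1 ≤ M → ∑ k ∈ range (i + 1), i.choose k • (fwdDiff 1)^[k] z 0
        = ∑ k ∈ range M, ((i.choose k : ℕ) : ℤ) * (fwdDiff 1)^[k] z 0 := by
      intro M hM
      have h4 : ∑ k ∈ range (i + 1), i.choose k • (fwdDiff 1)^[k] z 0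
          = ∑ k ∈ range (i + 1), ((i.choose k : ℕ) : ℤ) * (fwdDiff 1)^[k] z 0 := by
        apply Finset.sum_congr rfl
        intro k _
        rw [nsmul_eq_mul]
      rw [h4]
      apply Finset.sum_subset (Finset.range_mono hM)
      intro k _ hk
      have : i < k := by
        have := Finset.mem_range.not.mp hk
        omega
      rw [Nat.choose_eq_zero_of_lt this]
      simp
    rw [h3 (i + 1 + e) (by omega)]
    symm
    apply Finset.sum_subset (Finset.range_mono (by omega))
    intro k _ hk
    have : e ≤ k := by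
      have := Finset.mem_range.not.mp hk
      omega
    rw [hzero k this, mul_zero]
  have hsum : ∑ i ∈ range (2 ^ s), z i
      = ∑ k ∈ range e, (((2 ^ s).choose (k + 1) : ℕ) : ℤ) * (fwdDiff 1)^[k] z 0 := by
    calc ∑ i ∈ range (2 ^ s), z i
        = ∑ i ∈ range (2 ^ s), ∑ k ∈ range e, ((i.choose k : ℕ) : ℤ) * (fwdDiff 1)^[k] z 0 :=
          Finset.sum_congr rfl (fun i _ => hz i)
      _ = ∑ k ∈ range e, ∑ i ∈ range (2 ^ s), ((i.choose k : ℕ) : ℤ) * (fwdDiff 1)^[k] z 0 :=
          Finset.sum_comm
      _ = _ := by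
          apply Finset.sum_congr rfl
          intro k _
          rw [← Finset.sum_mul, ← hockey k (2 ^ s)]
          push_cast
          rfl
  rw [hsum]
  apply Finset.even_sum
  intro k hk
  have hk' := Finset.mem_range.mp hk
  apply Even.mul_right
  rw [Int.even_coe_nat]
  exact even_iff_two_dvd.mpr (Nat.Prime.dvd_choose_pow Nat.prime_two (by omega) (by omega))

theorem prod_zpow_neg_one (n : ℕ → ℤ) : ∀ N : ℕ,
    ∏ j ∈ range N, (-1 : ℝ) ^ (n j) = (-1 : ℝ) ^ (∑ j ∈ range N, n j) := by
  intro N
  induction N with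
  | zero => simp
  | succ N ih => rw [Finset.prod_range_succ, Finset.sum_range_succ, ih, zpow_add₀ (by norm_num)]

theorem t_SIG : S_SIG := by
  intro N G n hG hev
  have h1 : ∀ j ∈ range N, Real.cos (Real.pi * G.eval (j : ℝ))
      = (-1 : ℝ) ^ (n j) * Real.cos (Real.pi * (G.eval (j : ℝ) - n j)) := by
    intro j _
    rw [← Real.cos_add_int_mul_pi]
    congr 1
    ring
  rw [Finset.prod_congr rfl h1, Finset.prod_mul_distrib, prod_zpow_neg_one, hev.neg_one_zpow,
    one_mul]
  apply Finset.prod_nonneg
  intro j hj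
  have h2 := abs_lt.mp (hG j (Finset.mem_range.mp hj))
  have hp := Real.pi_pos
  apply Real.cos_nonneg_of_mem_Icc
  constructor <;> nlinarith

end Pool.Agent.Q95.MZ
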